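import Pool.Agent.R986.ARFree

/-!
# Free groups of rank at least two are not algebraically recurrent

Algebraic recurrence passes to quotients (a symmetric generating law on a quotient lifts to a
symmetric generating law), and the wreath product of two infinite cyclic groups, which is generated
by two elements, is not algebraically recurrent (file `Pool.Agent.H582AR.Prob` of the starting
library).
-/

set_option autoImplicit false

open MeasureTheory

namespace Pool.Agent.Results.MP_3ace2b_pr.FreeGroupsNotAR

open Pool.Agent.R986.AlgRec

/-- For every `d ≥ 2` (in particular for `d = 2`) the free group `F_d` is not algebraically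
recurrent: there are a symmetric probability measure `μ` on `F_d` whose support generates `F_d`,
and an index `n ≥ 1`, such that with positive probability the semigroup `S_n` generated by
`X_n, X_(n+1), ...` is not the whole group. -/
theorem result (d : ℕ) (hd : 2 ≤ d) : ∃ μ : PMF (FreeGroup (Fin d)), Admissible μ ∧
    ∃ n : ℕ, 1 ≤ n ∧ 0 < (@steps (FreeGroup (Fin d)) ⊤ μ) {ω | tail ω n ≠ ⊤} := by
  have h := freeGroup_not_isAR d hd
  unfold IsAR at h
  push Not at h
  obtain ⟨μ, hμ, hAR⟩ := h
  let _ : MeasurableSpace (FreeGroup (Fin d)) := ⊤
  exact ⟨μ, hμ, (not_ar_iff _).1 hAR⟩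

end Pool.Agent.Results.MP_3ace2b_pr.FreeGroupsNotAR
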